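import Pool.Agent.H73.BV.Main

/-!
# The hyperplane inequality for all bounded convex symmetric sets of positive volume
-/

set_option autoImplicit false
set_option linter.unusedSectionVars false
set_option linter.unusedVariables false
set_option linter.style.haveILetI false

open MeasureTheory Measure Set Filter Topology
open scoped ENNReal NNReal Pointwise

namespace Pool.Agent.H73.BV

open Pool.Agent.H84 Pool.H71.Bdry Pool.Agent.H73.KG

/-- the section of a convex set has the same measure as the section of its interior -/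
theorem sec_interior {n : ℕ} {Ω : Set (EuclideanSpace ℝ (Fin (n + 1)))} (hΩc : Convex ℝ Ω)
    (h0 : (0 : EuclideanSpace ℝ (Fin (n + 1))) ∈ interior Ω) (a : EuclideanSpace ℝ (Fin (n + 1))) :
    μHE[n] {x | x ∈ Ω ∧ inner ℝ a x = (0:ℝ)} ≤ μHE[n] {x | x ∈ interior Ω ∧ inner ℝ a x = (0:ℝ)} := by
  rw [μHE_apply, μHE_apply]
  refine mul_le_mul' le_rfl ?_
  have key : ∀ r : ℝ, 0 < r → r < 1 →
      ENNReal.ofReal r ^ n * μH[(n:ℝ)] {x | x ∈ Ω ∧ inner ℝ a x = (0:ℝ)}
        ≤ μH[(n:ℝ)] {x | x ∈ interior Ω ∧ inner ℝ a x = (0:ℝ)} := by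
    intro r hr0 hr1
    have h1 : r • {x | x ∈ Ω ∧ inner ℝ a x = (0:ℝ)} ⊆ {x | x ∈ interior Ω ∧ inner ℝ a x = (0:ℝ)} := by
      rintro _ ⟨x, ⟨hx, hax⟩, rfl⟩
      refine ⟨?_, ?_⟩
      · have h2 := hΩc.combo_interior_closure_mem_interior h0 (subset_closure hx)
          (a := 1 - r) (b := r) (by linarith) hr0.le (by ring)
        simpa using h2
      · simp only [inner_smul_right, hax, mul_zero]
    have h2 := measure_mono (μ := μH[(n:ℝ)]) h1
    rw [Measure.hausdorffMeasure_smul₀ (Nat.cast_nonneg n) hr0.ne'] at h2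
    refine le_trans (le_of_eq ?_) h2
    rw [ENNReal.smul_def, smul_eq_mul]
    congr 1
    rw [NNReal.rpow_natCast, ENNReal.coe_pow]
    congr 1
    rw [ENNReal.ofReal, Real.toNNReal_of_nonneg hr0.le, Real.nnnorm_of_nonneg hr0.le]
  have hlim : Tendsto (fun r : ℝ => ENNReal.ofReal r ^ n *
      μH[(n:ℝ)] {x | x ∈ Ω ∧ inner ℝ a x = (0:ℝ)}) (𝓝[<] 1)
      (𝓝 (1 * μH[(n:ℝ)] {x | x ∈ Ω ∧ inner ℝ a x = (0:ℝ)})) := by
    refine ENNReal.Tendsto.mul_const ?_ (Or.inl one_ne_zero)
    have h3 : Continuous fun r : ℝ => ENNReal.ofReal r ^ n :=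
      (ENNReal.continuous_pow n).comp ENNReal.continuous_ofReal
    have h4 := h3.tendsto 1
    simp only [ENNReal.ofReal_one, one_pow] at h4
    exact h4.mono_left nhdsWithin_le_nhds
  rw [one_mul] at hlim
  refine le_of_tendsto hlim ?_
  filter_upwards [Ioo_mem_nhdsLT (show (0:ℝ) < 1 by norm_num)] with r hr
  exact key r hr.1 hr.2

/-- the two inequalities for all bounded convex symmetric sets of positive volume -/
theorem general (hK : Pool.Agent.H20.KF.KLSStmt) :
    ∃ C : ℝ, 0 < C ∧ ∀ (n : ℕ) (Ω : Set (EuclideanSpace ℝ (Fin (n + 1)))),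
      Convex ℝ Ω → Bornology.IsBounded Ω → (∀ x ∈ Ω, -x ∈ Ω) → 0 < volume Ω →
      ∃ a : EuclideanSpace ℝ (Fin (n + 1)), a ≠ 0 ∧
        ∀ F : Set (EuclideanSpace ℝ (Fin (n + 1))), MeasurableSet F → F ⊆ Ω →
          volume F = volume Ω / 2 →
          (∀ P : ℝ, (∀ φ, Adm (interior Ω) φ → ∫ x in F, divg φ x ≤ P) →
            μHE[n] {x | x ∈ Ω ∧ inner ℝ a x = (0:ℝ)} ≤ ENNReal.ofReal (C * P)) ∧
          μHE[n] {x | x ∈ Ω ∧ inner ℝ a x = (0:ℝ)} ≤
            ENNReal.ofReal C * μHE[n] (Ω ∩ frontier F) := by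
  obtain ⟨C, hC, H⟩ := open_case hK
  refine ⟨C, hC, ?_⟩
  intro n Ω hc hb hs hv
  have hfr : volume (frontier Ω) = 0 := hc.addHaar_frontier volume
  have hdiff : volume (Ω \ interior Ω) = 0 := by
    refine measure_mono_null (t := frontier Ω) ?_ hfr
    intro x hx
    exact ⟨subset_closure hx.1, hx.2⟩
  have hvU : volume (interior Ω) = volume Ω := by
    refine measure_congr ?_
    refine (ae_le_set.2 ?_).antisymm (ae_le_set.2 hdiff)
    rw [sdiff_eq_empty.2 interior_subset, measure_empty]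
  have hne : (interior Ω).Nonempty := by
    rw [nonempty_iff_ne_empty]
    intro h
    rw [h, measure_empty] at hvU
    exact hv.ne hvU
  have hsU : ∀ x ∈ interior Ω, -x ∈ interior Ω := by
    intro x hx
    have h1 : -interior Ω ⊆ interior Ω := by
      refine interior_maximal ?_ isOpen_interior.neg
      intro y hy
      have := hs (-y) (interior_subset hy)
      simpa using this
    exact h1 (by simpa using hx)
  have hcU : Convex ℝ (interior Ω) := hc.interior
  have hbU : Bornology.IsBounded (interior Ω) := hb.subset interior_subset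
  obtain ⟨a, ha, h⟩ := H n (interior Ω) isOpen_interior hcU hbU hsU hne
  have h0 : (0:EuclideanSpace ℝ (Fin (n + 1))) ∈ interior Ω := by
    obtain ⟨x, hx⟩ := hne
    have := hcU hx (hsU x hx) (a := 1/2) (b := 1/2) (by norm_num) (by norm_num) (by norm_num)
    simpa using this
  refine ⟨a, by rintro rfl; simp at ha, ?_⟩
  intro F hF hFΩ hFv
  have hSF : (F ∩ interior Ω : Set (EuclideanSpace ℝ (Fin (n + 1)))) =ᵐ[volume] F := by
    refine (ae_le_set.2 ?_).antisymm (ae_le_set.2 ?_)
    · rw [sdiff_eq_empty.2 inter_subset_left, measure_empty]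
    · refine measure_mono_null ?_ hdiff
      rintro x ⟨hx, hx2⟩
      exact ⟨hFΩ hx, fun h3 => hx2 ⟨hx, h3⟩⟩
  obtain ⟨h1, h2⟩ := h (F ∩ interior Ω) (hF.inter isOpen_interior.measurableSet) inter_subset_right
    (by rw [measure_congr hSF, hvU, hFv])
  refine ⟨fun P hP => ?_, ?_⟩
  · refine (sec_interior hc h0 a).trans (h1 P fun φ hφ => ?_)
    rw [setIntegral_congr_set hSF]
    exact hP φ hφ
  · refine (sec_interior hc h0 a).trans (h2.trans ?_)
    refine mul_le_mul' le_rfl (measure_mono ?_)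
    rintro x ⟨hx, hx2⟩
    refine ⟨interior_subset hx, closure_mono inter_subset_left hx2.1, fun h3 => hx2.2 ?_⟩
    rw [interior_inter, interior_interior]
    exact ⟨h3, hx⟩

end Pool.Agent.H73.BV
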