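import Pool.Agent.H73.BV.Per

/-!
# The gradient of mollified indicator functions is bounded by the relative perimeter
-/

set_option autoImplicit false
set_option linter.unusedVariables false

open MeasureTheory Measure Set Filter Topology Function
open scoped ENNReal NNReal Pointwise Convolution

namespace Pool.Agent.H73.BV

open Pool.H71.Bdry

variable {n : ℕ} {ψ : EuclideanSpace ℝ (Fin (n + 1)) → EuclideanSpace ℝ (Fin (n + 1))}
  {η : EuclideanSpace ℝ (Fin (n + 1)) → ℝ}

theorem int_divg {S : Set (EuclideanSpace ℝ (Fin (n + 1)))} (hS : MeasurableSet S)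
    (hψ : Continuous ψ) (hψc : HasCompactSupport ψ) (hη : ContDiff ℝ 1 η)
    (hc : HasCompactSupport η) :
    ∫ z in S, divg (fld ψ η) z = - ∫ x, fderiv ℝ (moll S η) x (ψ x) := by
  have hfc : Continuous (fun x => fderiv ℝ η x) := hη.continuous_fderiv (by simp)
  have hF : Integrable (fun p : EuclideanSpace ℝ (Fin (n + 1)) × EuclideanSpace ℝ (Fin (n + 1)) =>
      -(fderiv ℝ η (p.2 - p.1) (ψ p.2))) (volume.prod volume) := by
    refine Continuous.integrable_of_hasCompactSupport ?_ ?_
    · exact ((hfc.comp (continuous_snd.sub continuous_fst)).clm_apply (hψ.comp continuous_snd)).neg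
    · refine HasCompactSupport.of_support_subset_isCompact
        (K := (fun q : EuclideanSpace ℝ (Fin (n + 1)) × EuclideanSpace ℝ (Fin (n + 1)) =>
          (q.2 - q.1, q.2)) '' (tsupport η ×ˢ tsupport ψ)) ?_ ?_
      · exact (hc.isCompact.prod hψc.isCompact).image (by fun_prop)
      · rintro ⟨z, x⟩ hzx
        have h1 : fderiv ℝ η (x - z) (ψ x) ≠ 0 := by
          intro h
          apply hzx
          simp only [h, neg_zero]
        have h2 : ψ x ≠ 0 := by
          intro h
          rw [h, map_zero] at h1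
          exact h1 rfl
        have h3 : x - z ∈ tsupport η := by
          refine tsupport_fderiv_subset ℝ (subset_tsupport _ ?_)
          intro h
          apply h1
          rw [h]
          rfl
        refine ⟨(x - z, x), ⟨h3, subset_tsupport _ h2⟩, ?_⟩
        simp
  have hF2 : Integrable (uncurry fun z x : EuclideanSpace ℝ (Fin (n + 1)) =>
      -(fderiv ℝ η (x - z) (ψ x))) ((volume.restrict S).prod volume) := by
    have h1 : (volume.restrict S).prod (volume : Measure (EuclideanSpace ℝ (Fin (n + 1))))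
        = (volume.prod volume).restrict (S ×ˢ univ) := by
      rw [← Measure.prod_restrict, Measure.restrict_univ]
    rw [h1]
    exact hF.restrict
  simp_rw [fld_divg hψ hη hc hψc]
  rw [integral_integral_swap hF2, ← integral_neg]
  congr 1
  ext1 x
  rw [integral_neg, moll_fderiv S hS η hη hc]

/-- the pairing with the gradient, bounded by the perimeter -/
theorem pair_le {S Ω : Set (EuclideanSpace ℝ (Fin (n + 1)))} (hS : MeasurableSet S) {P ρ : ℝ}
    (hP : ∀ φ, Adm Ω φ → ∫ x in S, divg φ x ≤ P)
    (hψ : Continuous ψ) (hψc : HasCompactSupport ψ) (hψ1 : ∀ x, ‖ψ x‖ ≤ 1)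
    (h0 : ∀ x, 0 ≤ η x) (hη : ContDiff ℝ 1 η) (hr : tsupport η ⊆ Metric.closedBall 0 ρ)
    (h1 : ∫ x, η x = 1) (hsub : ∀ x ∈ tsupport ψ, Metric.closedBall x ρ ⊆ Ω) :
    ∫ x, fderiv ℝ (moll S η) x (ψ x) ≤ P := by
  have hc : HasCompactSupport η :=
    (isCompact_closedBall (0 : EuclideanSpace ℝ (Fin (n + 1))) ρ).of_isClosed_subset
      (isClosed_tsupport η) hr
  have hηi : Integrable η := hη.continuous.integrable_of_hasCompactSupport hc
  have hψc' : HasCompactSupport (fun x => - ψ x) := by
    refine hψc.mono fun x hx => ?_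
    intro h
    apply hx
    simp only [h, neg_zero]
  have ht : tsupport (fun x => - ψ x) ⊆ tsupport ψ := by
    refine closure_mono fun x hx => ?_
    intro h
    apply hx
    simp only [h, neg_zero]
  have hψn : Continuous (fun x => - ψ x) := hψ.neg
  have hadm : Adm Ω (fld (fun x => - ψ x) η) := by
    refine ⟨fld_contDiff hψn hη hc, fld_comp hψc' hr, ?_, fun x =>
      fld_bound (by simpa using hψ1) h0 hηi h1 x⟩
    refine (fld_supp hψc' hr).trans ?_
    rintro _ ⟨x, hx, y, hy, rfl⟩
    refine hsub x (ht hx) ?_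
    rw [Metric.mem_closedBall, dist_eq_norm]
    simpa using hy
  have h2 := hP _ hadm
  rw [int_divg hS hψn hψc' hη hc, ← integral_neg] at h2
  simpa using h2

/-- **the gradient bound** -/
theorem grad_le {S Ω K : Set (EuclideanSpace ℝ (Fin (n + 1)))} (hS : MeasurableSet S) {P ρ R : ℝ}
    (hP : ∀ φ, Adm Ω φ → ∫ x in S, divg φ x ≤ P)
    (hKm : MeasurableSet K) (hKR : K ⊆ Metric.closedBall 0 R) (hρ : 0 < ρ)
    (hball : ∀ x ∈ K, Metric.closedBall x ρ ⊆ Ω)
    (h0 : ∀ x, 0 ≤ η x) (hη : ContDiff ℝ 1 η) (hr : tsupport η ⊆ Metric.closedBall 0 (ρ / 2))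
    (h1 : ∫ x, η x = 1) :
    ∫ x in K, ‖fderiv ℝ (moll S η) x‖ ≤ P := by
  have hc : HasCompactSupport η :=
    (isCompact_closedBall (0 : EuclideanSpace ℝ (Fin (n + 1))) (ρ / 2)).of_isClosed_subset
      (isClosed_tsupport η) hr
  have hKb : Bornology.IsBounded K := Metric.isBounded_closedBall.subset hKR
  have hKv : volume K ≠ ⊤ := hKb.measure_lt_top.ne
  have huC : ContDiff ℝ 1 (moll S η) := moll_contDiff S hS η hη hc
  have hfc : Continuous (fun x => fderiv ℝ (moll S η) x) := huC.continuous_fderiv (by simp)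
  set G : EuclideanSpace ℝ (Fin (n + 1)) → EuclideanSpace ℝ (Fin (n + 1)) := fun x =>
    (InnerProductSpace.toDual ℝ (EuclideanSpace ℝ (Fin (n + 1)))).symm (fderiv ℝ (moll S η) x)
    with hG
  have hGc : Continuous G := (LinearIsometryEquiv.continuous _).comp hfc
  have hGn : ∀ x, ‖G x‖ = ‖fderiv ℝ (moll S η) x‖ := fun x => LinearIsometryEquiv.norm_map _ _
  have hGf : ∀ x v, fderiv ℝ (moll S η) x v = inner ℝ (G x) v := by
    intro x v
    rw [hG]
    simp only [InnerProductSpace.toDual_symm_apply]
  have hδ : 0 < ρ / 4 := by positivity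
  set χ : EuclideanSpace ℝ (Fin (n + 1)) → ℝ := fun x => (thickenedIndicator hδ K x : ℝ) with hχ
  have hχc : Continuous χ := NNReal.continuous_coe.comp (thickenedIndicator hδ K).continuous
  have hχ0 : ∀ x, 0 ≤ χ x := fun x => NNReal.coe_nonneg _
  have hχ1 : ∀ x, χ x ≤ 1 := fun x => by
    have := thickenedIndicator_le_one hδ K x
    exact_mod_cast this
  have hχK : ∀ x ∈ K, χ x = 1 := fun x hx => by
    have := thickenedIndicator_one hδ K hx
    rw [hχ]
    simp only [this, NNReal.coe_one]
  have hχs : ∀ x, χ x ≠ 0 → x ∈ Metric.cthickening (ρ / 4) K := by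
    intro x hx
    by_contra h
    apply hx
    have h2 : x ∉ Metric.thickening (ρ / 4) K := fun h3 =>
      h (Metric.thickening_subset_cthickening _ _ h3)
    have := thickenedIndicator_zero hδ K h2
    rw [hχ]
    simp only [this, NNReal.coe_zero]
  -- estimate for each parameter
  have key : ∀ δ : ℝ, 0 < δ → ∫ x in K, ‖fderiv ℝ (moll S η) x‖ ≤ P + δ * volume.real K := by
    intro δ hδ0
    set c : EuclideanSpace ℝ (Fin (n + 1)) → ℝ := fun x => χ x * (‖G x‖ + δ)⁻¹ with hcdef
    have hpos : ∀ x, 0 < ‖G x‖ + δ := fun x => by positivity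
    have hcc : Continuous c := hχc.mul ((hGc.norm.add continuous_const).inv₀ fun x => (hpos x).ne')
    set ψ : EuclideanSpace ℝ (Fin (n + 1)) → EuclideanSpace ℝ (Fin (n + 1)) := fun x =>
      c x • G x with hψdef
    have hψcont : Continuous ψ := hcc.smul hGc
    have hψt : tsupport ψ ⊆ Metric.cthickening (ρ / 4) K := by
      refine closure_minimal ?_ Metric.isClosed_cthickening
      intro x hx
      refine hχs x ?_
      intro h
      apply hx
      simp only [hψdef, hcdef, h, zero_mul, zero_smul]
    have hcomp : IsCompact (Metric.cthickening (ρ / 4) K) :=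
      Metric.isCompact_of_isClosed_isBounded Metric.isClosed_cthickening hKb.cthickening
    have hψcs : HasCompactSupport ψ := hcomp.of_isClosed_subset (isClosed_tsupport _) hψt
    have hψ1 : ∀ x, ‖ψ x‖ ≤ 1 := by
      intro x
      simp only [hψdef, hcdef]
      rw [norm_smul, norm_mul, norm_inv, Real.norm_of_nonneg (hχ0 x),
        Real.norm_of_nonneg (hpos x).le, mul_assoc]
      refine mul_le_one₀ (hχ1 x) (by positivity) ?_
      rw [inv_mul_le_iff₀ (hpos x)]
      linarith [norm_nonneg (G x)]
    have hsub : ∀ x ∈ tsupport ψ, Metric.closedBall x (ρ / 2) ⊆ Ω := by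
      intro x hx
      have hx' := hψt hx
      have h3 : x ∈ Metric.thickening (ρ / 2) K :=
        Metric.cthickening_subset_thickening' (by positivity) (by linarith) K hx'
      rw [Metric.mem_thickening_iff] at h3
      obtain ⟨k, hk, hxk⟩ := h3
      refine Subset.trans ?_ (hball k hk)
      exact Metric.closedBall_subset_closedBall' (by linarith)
    have hmain := pair_le hS hP hψcont hψcs hψ1 h0 hη hr h1 hsub
    have hval : ∀ x, fderiv ℝ (moll S η) x (ψ x) = c x * ‖G x‖ ^ 2 := by
      intro x
      rw [hGf]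
      simp only [hψdef]
      rw [inner_smul_right, real_inner_self_eq_norm_sq]
    simp_rw [hval] at hmain
    have hI : Integrable (fun x => c x * ‖G x‖ ^ 2) := by
      refine Continuous.integrable_of_hasCompactSupport (by fun_prop) ?_
      refine hψcs.mono fun x hx => ?_
      intro h
      apply hx
      simp only
      rw [← hval, h, map_zero]
    have hnn : ∀ x, 0 ≤ c x * ‖G x‖ ^ 2 := fun x => by
      have := hpos x
      have := hχ0 x
      simp only [hcdef]
      positivity
    have h4 : ∫ x in K, c x * ‖G x‖ ^ 2 ≤ P :=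
      (setIntegral_le_integral hI (Eventually.of_forall hnn)).trans hmain
    obtain ⟨B, hB⟩ : ∃ B : ℝ, ∀ x ∈ Metric.closedBall (0 : EuclideanSpace ℝ (Fin (n + 1))) R,
        ‖‖fderiv ℝ (moll S η) x‖‖ ≤ B :=
      (isCompact_closedBall _ _).exists_bound_of_continuousOn hfc.norm.continuousOn
    have hgi : IntegrableOn (fun x => ‖fderiv ℝ (moll S η) x‖) K :=
      Measure.integrableOn_of_bounded (M := B) hKv hfc.norm.aestronglyMeasurable
        ((ae_restrict_iff' hKm).2 (Eventually.of_forall fun x hx => hB x (hKR hx)))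
    have h5 : ∫ x in K, (‖fderiv ℝ (moll S η) x‖ - δ) ≤ ∫ x in K, c x * ‖G x‖ ^ 2 := by
      refine setIntegral_mono_on (hgi.sub (integrableOn_const hKv)) hI.integrableOn hKm ?_
      intro x hx
      simp only [hcdef]
      rw [hχK x hx, one_mul, ← hGn x, inv_mul_eq_div, le_div_iff₀ (hpos x)]
      nlinarith [norm_nonneg (G x)]
    rw [integral_sub hgi (integrableOn_const hKv), setIntegral_const, smul_eq_mul] at h5
    linarith [mul_comm δ (volume.real K)]
  refine le_of_forall_pos_le_add fun ε hε => ?_
  have h6 := key (ε / (volume.real K + 1)) (by positivity)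
  refine h6.trans ?_
  have h7 : 0 ≤ volume.real K := measureReal_nonneg
  have h8 : ε / (volume.real K + 1) * volume.real K ≤ ε := by
    rw [div_mul_eq_mul_div, div_le_iff₀ (by positivity)]
    nlinarith
  linarith

end Pool.Agent.H73.BV
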