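import Pool.Agent.H73.BV.Grad
import Pool.Agent.H27.KG.KRE

/-!
# From the bound for Lipschitz functions to the perimeter inequality
-/

set_option autoImplicit false
set_option linter.unusedSectionVars false
set_option linter.unusedVariables false
set_option linter.style.haveILetI false

open MeasureTheory Measure Set Filter Topology
open scoped ENNReal NNReal Pointwise

namespace Pool.Agent.H73.BV

open Pool.Agent.H84 Pool.H71.Bdry Pool.Agent.H73.KG

section Fin

variable {n : ℕ}

/-- The isoperimetric inequality on a slightly shrunk body. -/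
theorem aux {Ω K K' S : Set (EuclideanSpace ℝ (Fin (n + 1)))} {R Λ ρ P : ℝ} (hΩ : IsOpen Ω)
    (hK : CB K R) (hK' : CB K' R) (hKK : K' ⊆ K) (hρ : 0 < ρ)
    (hball : ∀ x ∈ K, Metric.closedBall x ρ ⊆ Ω) (hS : MeasurableSet S)
    (hSb : Bornology.IsBounded S) (hP : ∀ φ, Adm Ω φ → ∫ x in S, divg φ x ≤ P)
    (hΛ : 0 < Λ) (hPL : PL K' Λ) (b : ℝ)
    (h1 : b ≤ volume.real (K' ∩ S)) (h2 : b ≤ volume.real (K' \ S)) :
    2 * b ≤ 16 * Λ * P + volume.real K' / 4 := by
  refine le_of_forall_pos_le_add fun ε hε => ?_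
  obtain ⟨η, hη2, hη0, hηs, hη1, hηε⟩ := exists_bump hK hS (ρ / 2) (by positivity) (ε := ε / 4) (by positivity)
  have hηc : HasCompactSupport η :=
    (isCompact_closedBall (0 : EuclideanSpace ℝ (Fin (n + 1))) (ρ / 2)).of_isClosed_subset (isClosed_tsupport η) hηs
  have hηi : Integrable η := hη2.continuous.integrable_of_hasCompactSupport hηc
  have hη1' : ContDiff ℝ 1 η := hη2.of_le (by norm_num)
  set u := moll S η with hu
  have huC : ContDiff ℝ 1 u := moll_contDiff S hS η hη1' hηc
  obtain ⟨L, hL⟩ := moll_fderiv_lip hS hSb hη2 hηc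
  have hu0 := moll_nonneg S hη0
  have hu1 := moll_le_one S hη0 hηi hη1
  set f : EuclideanSpace ℝ (Fin (n + 1)) → ℝ := fun x => 2 * u x - 1 with hf
  have hfC : ContDiff ℝ 1 f := (contDiff_const.mul huC).sub contDiff_const
  have hfd : ∀ x, fderiv ℝ f x = (2:ℝ) • fderiv ℝ u x := by
    intro x
    have hd : DifferentiableAt ℝ u x := (huC.differentiable (by simp)).differentiableAt
    have := ((hd.hasFDerivAt.const_mul (2:ℝ)).sub_const (1:ℝ)).fderiv
    simpa using this
  have hfL : ∀ x z, ‖fderiv ℝ f x - fderiv ℝ f z‖ ≤ (2 * L) * ‖x - z‖ := by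
    intro x z
    rw [hfd, hfd, ← smul_sub, norm_smul, mul_assoc]
    have := hL.dist_le_mul x z
    rw [dist_eq_norm, dist_eq_norm] at this
    rw [Real.norm_of_nonneg (by norm_num : (0:ℝ) ≤ 2)]
    gcongr
  have hf1 : ∀ x ∈ K, |f x| ≤ 1 := by
    intro x _
    rw [hf, abs_le]
    have := hu0 x
    have := hu1 x
    constructor <;> simp only <;> linarith
  obtain ⟨g, hgC, hgd, hgi⟩ := smoothing hK hfC hfL hf1 (t := 16 * Λ ^ 2) (by positivity)
    (ε := ε / 4) (by positivity)
  have hsq : Real.sqrt (16 * Λ ^ 2) = 4 * Λ := by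
    rw [show 16 * Λ ^ 2 = (4 * Λ) ^ 2 by ring]
    exact Real.sqrt_sq (by positivity)
  rw [hsq] at hgd hgi
  haveI : IsFiniteMeasure (volume.restrict K) := ⟨by simpa using hK.lt_top⟩
  haveI : IsFiniteMeasure (volume.restrict K') := ⟨by simpa using hK'.lt_top⟩
  -- the gradient integral
  have hgrad : ∫ x in K, ‖fderiv ℝ f x‖ ≤ 2 * P := by
    have h3 : ∫ x in K, ‖fderiv ℝ f x‖ = 2 * ∫ x in K, ‖fderiv ℝ u x‖ := by
      rw [← integral_const_mul]
      congr 1
      ext x
      rw [hfd, norm_smul, Real.norm_of_nonneg (by norm_num : (0:ℝ) ≤ 2)]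
    rw [h3]
    refine mul_le_mul_of_nonneg_left ?_ (by norm_num)
    exact grad_le hS hP hK.meas hK.sub hρ hball hη0 hη1' hηs hη1
  -- integrability
  have hfi : IntegrableOn f K' := by
    obtain ⟨B, hB⟩ := hK'.bdd_of_cont hfC.continuous
    refine Measure.integrableOn_of_bounded (M := B) hK'.lt_top.ne
      hfC.continuous.aestronglyMeasurable ?_
    exact (ae_restrict_iff' hK'.meas).2 (Eventually.of_forall fun x hx => hB x hx)
  have hgi' : IntegrableOn g K' := by
    obtain ⟨B, hB⟩ := hK'.bdd_of_cont hgC.continuous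
    refine Measure.integrableOn_of_bounded (M := B) hK'.lt_top.ne
      hgC.continuous.aestronglyMeasurable ?_
    exact (ae_restrict_iff' hK'.meas).2 (Eventually.of_forall fun x hx => hB x hx)
  have hfiK : IntegrableOn f K := by
    obtain ⟨B, hB⟩ := hK.bdd_of_cont hfC.continuous
    refine Measure.integrableOn_of_bounded (M := B) hK.lt_top.ne
      hfC.continuous.aestronglyMeasurable ?_
    exact (ae_restrict_iff' hK.meas).2 (Eventually.of_forall fun x hx => hB x hx)
  have hgiK : IntegrableOn g K := by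
    obtain ⟨B, hB⟩ := hK.bdd_of_cont hgC.continuous
    refine Measure.integrableOn_of_bounded (M := B) hK.lt_top.ne
      hgC.continuous.aestronglyMeasurable ?_
    exact (ae_restrict_iff' hK.meas).2 (Eventually.of_forall fun x hx => hB x hx)
  have huiK : IntegrableOn u K := by
    obtain ⟨B, hB⟩ := hK.bdd_of_cont huC.continuous
    refine Measure.integrableOn_of_bounded (M := B) hK.lt_top.ne
      huC.continuous.aestronglyMeasurable ?_
    exact (ae_restrict_iff' hK.meas).2 (Eventually.of_forall fun x hx => hB x hx)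
  set σ : EuclideanSpace ℝ (Fin (n + 1)) → ℝ := S.indicator (fun _ => (1:ℝ)) with hσ
  have hσi : ∀ T : Set (EuclideanSpace ℝ (Fin (n + 1))), volume T ≠ ⊤ → IntegrableOn σ T := by
    intro T hT
    haveI : IsFiniteMeasure (volume.restrict T) := ⟨by simpa using hT.lt_top⟩
    exact (integrableOn_const hT).indicator hS
  obtain ⟨c, hc⟩ := hPL g hgC (1 / (4 * Λ)) (by positivity) (fun x hx => hgd x (hKK hx))
  have hcc : Λ * (1 / (4 * Λ)) * volume.real K' = volume.real K' / 4 := by
    field_simp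
  rw [hcc] at hc
  have hlow := sign_far hK' hS c b h1 h2
  -- triangle inequality
  have hI1 : IntegrableOn (fun x => |(2 * σ x - 1) - f x|) K' :=
    ((((hσi K' hK'.lt_top.ne).const_mul 2).sub (integrableOn_const hK'.lt_top.ne)).sub hfi).abs
  have hI2 : IntegrableOn (fun x => |f x - g x|) K' := (hfi.sub hgi').abs
  have hI3 : IntegrableOn (fun x => |g x - c|) K' :=
    (hgi'.sub (integrableOn_const hK'.lt_top.ne)).abs
  have hI12 : IntegrableOn (fun x => |(2 * σ x - 1) - f x| + |f x - g x|) K' := hI1.add hI2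
  have htri : ∫ x in K', |(2 * σ x - 1) - c|
      ≤ (∫ x in K', |(2 * σ x - 1) - f x|) + (∫ x in K', |f x - g x|) + ∫ x in K', |g x - c| := by
    rw [← integral_add hI1 hI2, ← integral_add hI12 hI3]
    refine integral_mono ?_ (hI12.add hI3) ?_
    · exact ((((hσi K' hK'.lt_top.ne).const_mul 2).sub (integrableOn_const hK'.lt_top.ne)).sub
        (integrableOn_const hK'.lt_top.ne)).abs
    · intro x
      have e1 := abs_add_three ((2 * σ x - 1) - f x) (f x - g x) (g x - c)
      rw [show (2 * σ x - 1) - f x + (f x - g x) + (g x - c) = (2 * σ x - 1) - c by ring] at e1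
      exact e1
  have hsub1 : ∫ x in K', |(2 * σ x - 1) - f x| ≤ ε / 2 := by
    have hJ : IntegrableOn (fun x => |u x - σ x|) K := (huiK.sub (hσi K hK.lt_top.ne)).abs
    calc ∫ x in K', |(2 * σ x - 1) - f x| = ∫ x in K', 2 * |u x - σ x| := by
          congr 1
          ext x
          rw [hf, ← abs_neg]
          simp only
          rw [show -(2 * σ x - 1 - (2 * u x - 1)) = 2 * (u x - σ x) by ring, abs_mul,
            abs_of_pos (by norm_num : (0:ℝ) < 2)]
      _ ≤ ∫ x in K, 2 * |u x - σ x| := by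
          refine setIntegral_mono_set (hJ.const_mul 2) ?_ hKK.eventuallyLE
          exact Eventually.of_forall fun x => by positivity
      _ = 2 * ∫ x in K, |u x - σ x| := integral_const_mul _ _
      _ ≤ 2 * (ε / 4) := by gcongr
      _ = ε / 2 := by ring
  have hsub2 : ∫ x in K', |f x - g x| ≤ 16 * Λ * P + ε / 4 := by
    calc ∫ x in K', |f x - g x| ≤ ∫ x in K, |f x - g x| := by
          refine setIntegral_mono_set (hfiK.sub hgiK).abs ?_ hKK.eventuallyLE
          exact Eventually.of_forall fun x => by positivity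
      _ ≤ 2 * (4 * Λ) * (∫ x in K, ‖fderiv ℝ f x‖) + ε / 4 := hgi
      _ ≤ 2 * (4 * Λ) * (2 * P) + ε / 4 := by gcongr
      _ = _ := by ring
  linarith

/-- **The machine** (coordinates).  If a convex subset `Ω'` of `Ω` with at least three quarters of
the volume has Poincare constant `Λ²`, then every `S` with half the volume has a relative perimeter
of at least `|Ω| / (64 Λ)`. -/
theorem fin {Ω Ω' S : Set (EuclideanSpace ℝ (Fin (n + 1)))} (hΩo : IsOpen Ω) (hΩc : Convex ℝ Ω)
    (hΩb : Bornology.IsBounded Ω) (h0 : (0:EuclideanSpace ℝ (Fin (n + 1))) ∈ Ω) (hsub : Ω' ⊆ Ω) (hΩ'c : Convex ℝ Ω')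
    (hΩ'm : MeasurableSet Ω') {Λ : ℝ} (hΛ : 0 < Λ)
    (hvol : 3 / 4 * volume.real Ω ≤ volume.real Ω') (hPL : PL Ω' Λ)
    (hS : MeasurableSet S) (hSΩ : S ⊆ Ω) (hSv : volume.real S = volume.real Ω / 2) {P : ℝ}
    (hP : ∀ φ, Adm Ω φ → ∫ x in S, divg φ x ≤ P) :
    volume.real Ω ≤ 64 * Λ * P := by
  have hΩv0 : volume Ω ≠ 0 := (hΩo.measure_pos volume ⟨0, h0⟩).ne'
  have hΩvt : volume Ω ≠ ⊤ := hΩb.measure_lt_top.ne
  set V := volume.real Ω with hV
  have hV0 : 0 < V := ENNReal.toReal_pos hΩv0 hΩvt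
  obtain ⟨R, hR⟩ := hΩb.subset_closedBall 0
  have hRpos : 0 ≤ R := by
    have := hR h0
    simpa using this
  have hΩ'v0 : volume Ω' ≠ 0 := by
    intro h
    have h1 : volume.real Ω' = 0 := by simp [Measure.real, h]
    rw [h1] at hvol
    linarith
  set N := Module.finrank ℝ (EuclideanSpace ℝ (Fin (n + 1))) with hN
  -- estimate for each shrinking factor
  have key : ∀ r : ℝ, 0 < r → r < 1 →
      2 * ((3 / 4 * r ^ N - 1 / 2) * V) ≤ 16 * Λ * P + V / 4 := by
    intro r hr0 hr1
    obtain ⟨ρ, hρ, hball⟩ := shrink_ball hΩo hΩc h0 hr0 hr1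
    have hK : CB (r • Ω) R := by
      refine ⟨hΩc.smul r, (hΩo.smul₀ hr0.ne').measurableSet, ?_, ?_⟩
      · rintro _ ⟨ω, hω, rfl⟩
        have := hR hω
        rw [mem_closedBall_zero_iff] at this ⊢
        simp only [norm_smul, Real.norm_of_nonneg hr0.le]
        nlinarith [norm_nonneg ω]
      · rw [Measure.addHaar_smul]
        simp only [ne_eq, mul_eq_zero, not_or]
        refine ⟨?_, hΩv0⟩
        simp only [ENNReal.ofReal_eq_zero, not_le]
        positivity
    have hK' : CB (r • Ω') R := by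
      refine ⟨hΩ'c.smul r, hΩ'm.const_smul_of_ne_zero hr0.ne', ?_, ?_⟩
      · exact (smul_set_mono hsub).trans hK.sub
      · rw [Measure.addHaar_smul]
        simp only [ne_eq, mul_eq_zero, not_or]
        refine ⟨?_, hΩ'v0⟩
        simp only [ENNReal.ofReal_eq_zero, not_le]
        positivity
    have hPL' : PL (r • Ω') Λ := KRE_mono (KRE_smul hPL hr0) (by nlinarith)
    have hrΩ : r • Ω' ⊆ Ω := by
      refine (smul_set_mono hsub).trans fun x hx => hball x hx ?_
      exact Metric.mem_closedBall_self hρ.le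
    have hK'v : volume.real (r • Ω') = r ^ N * volume.real Ω' := volume_real_smul Ω' hr0
    have hK'lt : volume.real (r • Ω') ≤ V := measureReal_mono hrΩ hΩvt
    have hsum : volume.real (r • Ω') = volume.real (r • Ω' ∩ S) + volume.real ((r • Ω') \ S) :=
      (measureReal_inter_add_sdiff hS (hK'.lt_top.ne)).symm
    have hlow : 3 / 4 * r ^ N * V ≤ volume.real (r • Ω') := by
      rw [hK'v]
      have : 0 ≤ r ^ N := by positivity
      nlinarith
    have hA : volume.real (r • Ω' ∩ S) ≤ V / 2 := by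
      rw [← hSv]
      exact measureReal_mono inter_subset_right (measure_ne_top_of_subset hSΩ hΩvt)
    have hB : volume.real ((r • Ω') \ S) ≤ V / 2 := by
      have h1 : volume.real ((r • Ω') \ S) ≤ volume.real (Ω \ S) :=
        measureReal_mono (sdiff_subset_sdiff_left hrΩ) (measure_ne_top_of_subset sdiff_subset hΩvt)
      have h2 : volume.real (Ω \ S) = V - volume.real S := by
        rw [measureReal_sdiff hSΩ hS]
      rw [h2, hSv] at h1
      linarith
    have := aux hΩo hK hK' (smul_set_mono hsub) hρ hball hS (hΩb.subset hSΩ) hP hΛ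
      hPL' ((3 / 4 * r ^ N - 1 / 2) * V) (by nlinarith) (by nlinarith)
    linarith
  -- let r tend to 1
  have hlim : Tendsto (fun r : ℝ => 2 * ((3 / 4 * r ^ N - 1 / 2) * V)) (𝓝[<] 1)
      (𝓝 (2 * ((3 / 4 * 1 ^ N - 1 / 2) * V))) := by
    have : Continuous fun r : ℝ => 2 * ((3 / 4 * r ^ N - 1 / 2) * V) := by fun_prop
    exact (this.tendsto 1).mono_left nhdsWithin_le_nhds
  have hev : ∀ᶠ r : ℝ in 𝓝[<] 1, 2 * ((3 / 4 * r ^ N - 1 / 2) * V) ≤ 16 * Λ * P + V / 4 := by
    filter_upwards [Ioo_mem_nhdsLT (show (0:ℝ) < 1 by norm_num)] with r hr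
    exact key r hr.1 hr.2
  have hfin := le_of_tendsto hlim hev
  rw [one_pow] at hfin
  linarith

end Fin

end Pool.Agent.H73.BV
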