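import Pool.Agent.H73.BV.Machine
import Pool.Agent.H20.KF.Tail

/-!
# The hyperplane inequality for the relative perimeter
-/

set_option autoImplicit false
set_option linter.unusedSectionVars false
set_option linter.unusedVariables false
set_option linter.style.haveILetI false

open MeasureTheory Measure Set Filter Topology
open scoped ENNReal NNReal Pointwise

namespace Pool.Agent.H73.BV

open Pool.Agent.H84 Pool.H71.Bdry Pool.Agent.H73.KG

/-- the section orthogonal to the direction of largest variance -/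
theorem section_le {n : ℕ} {Ω : Set (EuclideanSpace ℝ (Fin (n + 1)))} (hΩo : IsOpen Ω)
    (hΩc : Convex ℝ Ω) (hΩb : Bornology.IsBounded Ω) (hsymm : ∀ x ∈ Ω, -x ∈ Ω)
    (hne : Ω.Nonempty) :
    ∃ a : EuclideanSpace ℝ (Fin (n + 1)), ‖a‖ = 1 ∧ ∃ s : ℝ, 0 < s ∧
      (∀ v : EuclideanSpace ℝ (Fin (n + 1)),
        ∫ x in Ω, (inner ℝ v x) ^ 2 ≤ s ^ 2 * ‖v‖ ^ 2 * volume.real Ω) ∧
      μHE[n] {x | x ∈ Ω ∧ inner ℝ a x = (0:ℝ)}
        ≤ ENNReal.ofReal (64 * Real.sqrt Real.pi * volume.real Ω / s) := by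
  have hn : Module.finrank ℝ (EuclideanSpace ℝ (Fin (n + 1))) = n + 1 := by simp
  have h0 : (0:EuclideanSpace ℝ (Fin (n + 1))) ∈ Ω := by
    obtain ⟨x, hx⟩ := hne
    have := hΩc hx (hsymm x hx) (a := 1/2) (b := 1/2) (by norm_num) (by norm_num) (by norm_num)
    simpa using this
  obtain ⟨a, ha, s, hs, hsa, hsv⟩ := exists_max_dir hΩo h0 hΩb
  refine ⟨a, ha, s, hs, hsv, ?_⟩
  have hΩv0 : volume Ω ≠ 0 := (hΩo.measure_pos volume ⟨0, h0⟩).ne'
  have hΩvt : volume Ω ≠ ⊤ := hΩb.measure_lt_top.ne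
  set V := volume.real Ω with hV
  have hV0 : 0 < V := ENNReal.toReal_pos hΩv0 hΩvt
  have hVe : volume Ω = ENNReal.ofReal V := (ENNReal.ofReal_toReal hΩvt).symm
  have h2 := section_bound_gen hn hΩo hΩc hΩb hsymm a ha
  have hI : ∫⁻ x in Ω, ENNReal.ofReal ((inner ℝ a x) ^ 2) = ENNReal.ofReal (s ^ 2 * V) := by
    rw [← hsa, ofReal_integral_eq_lintegral_ofReal _ (Eventually.of_forall fun x => by positivity)]
    obtain ⟨R, hR⟩ := hΩb.subset_closedBall 0
    have hxR : ∀ x ∈ Ω, ‖x‖ ≤ R := fun x hx => by simpa using hR hx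
    refine Measure.integrableOn_of_bounded (M := (‖a‖ * R) ^ 2) hΩvt (by fun_prop) ?_
    refine (ae_restrict_iff' hΩo.measurableSet).2 (Eventually.of_forall fun x hx => ?_)
    rw [norm_pow]
    refine pow_le_pow_left₀ (norm_nonneg _) ?_ 2
    exact (norm_inner_le_norm a x).trans (by gcongr; exact hxR x hx)
  rw [hI, hVe, ← ENNReal.ofReal_pow hV0.le, ← ENNReal.ofReal_mul (by positivity)] at h2
  set M := μHE[n] {x | x ∈ Ω ∧ inner ℝ a x = (0:ℝ)} with hM
  have hMt : M ≠ ⊤ := by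
    intro h
    rw [h, ENNReal.top_pow (by norm_num), ENNReal.top_mul] at h2
    · exact absurd (top_le_iff.1 h2) ENNReal.ofReal_ne_top
    · simp only [ne_eq, ENNReal.ofReal_eq_zero, not_le]
      positivity
  have hMr : M = ENNReal.ofReal M.toReal := (ENNReal.ofReal_toReal hMt).symm
  rw [hMr, ← ENNReal.ofReal_pow ENNReal.toReal_nonneg, ← ENNReal.ofReal_mul (by positivity),
    ENNReal.ofReal_le_ofReal_iff (by positivity)] at h2
  rw [hMr]
  refine ENNReal.ofReal_le_ofReal ?_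
  refine abs_le_of_sq_le_sq' ?_ (by positivity) |>.2
  rw [div_pow, mul_pow, mul_pow, Real.sq_sqrt Real.pi_pos.le, le_div_iff₀ (by positivity)]
  have h3 : V * (M.toReal ^ 2 * s ^ 2) ≤ V * (64 ^ 2 * Real.pi * V ^ 2) := by nlinarith
  exact le_of_mul_le_mul_left h3 hV0

theorem pi_le : 64 * Real.sqrt Real.pi * 64 ≤ 7300 := by
  have h3 : Real.sqrt Real.pi ≤ 1.78 := by
    rw [Real.sqrt_le_left (by norm_num)]
    have := Real.pi_lt_d4
    norm_num
    linarith
  linarith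

/-- the two inequalities for open sets -/
theorem open_case (hK : Pool.Agent.H20.KF.KLSStmt) :
    ∃ C : ℝ, 0 < C ∧ ∀ (n : ℕ) (Ω : Set (EuclideanSpace ℝ (Fin (n + 1)))), IsOpen Ω →
      Convex ℝ Ω → Bornology.IsBounded Ω → (∀ x ∈ Ω, -x ∈ Ω) → Ω.Nonempty →
      ∃ a : EuclideanSpace ℝ (Fin (n + 1)), ‖a‖ = 1 ∧
        ∀ S : Set (EuclideanSpace ℝ (Fin (n + 1))), MeasurableSet S → S ⊆ Ω →
          volume S = volume Ω / 2 →
          (∀ P : ℝ, (∀ φ, Adm Ω φ → ∫ x in S, divg φ x ≤ P) →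
            μHE[n] {x | x ∈ Ω ∧ inner ℝ a x = (0:ℝ)} ≤ ENNReal.ofReal (C * P)) ∧
          μHE[n] {x | x ∈ Ω ∧ inner ℝ a x = (0:ℝ)} ≤
            ENNReal.ofReal C * μHE[n] (Ω ∩ frontier S) := by
  obtain ⟨C, hC, hB⟩ := hK
  have hC0 : 0 < Real.sqrt C := Real.sqrt_pos.2 (by linarith)
  refine ⟨7300 * Real.sqrt C, by positivity, ?_⟩
  intro n Ω ho hc hb hs hne
  obtain ⟨a, ha, s, hs0, hvar, hM⟩ := section_le ho hc hb hs hne
  refine ⟨a, ha, ?_⟩
  obtain ⟨R, hR⟩ := hb.subset_closedBall 0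
  have hCB : CB Ω R := ⟨hc, ho.measurableSet, hR, (ho.measure_pos volume hne).ne'⟩
  have hPL := Pool.Agent.H20.KF.body hC (EuclideanSpace ℝ (Fin (n + 1)))
    (fun U t => hB _ U t) hCB hs0 hvar
  intro S hS hSΩ hSv
  have h0 : (0:EuclideanSpace ℝ (Fin (n + 1))) ∈ Ω := by
    obtain ⟨x, hx⟩ := hne
    have := hc hx (hs x hx) (a := 1/2) (b := 1/2) (by norm_num) (by norm_num) (by norm_num)
    simpa using this
  have hΩv0 : volume Ω ≠ 0 := (ho.measure_pos volume ⟨0, h0⟩).ne'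
  have hΩvt : volume Ω ≠ ⊤ := hb.measure_lt_top.ne
  set V := volume.real Ω with hV
  have hV0 : 0 < V := ENNReal.toReal_pos hΩv0 hΩvt
  have hVe : volume Ω = ENNReal.ofReal V := (ENNReal.ofReal_toReal hΩvt).symm
  have hSv' : volume.real S = V / 2 := by
    rw [Measure.real, hSv, ENNReal.toReal_div, hV, Measure.real]
    norm_num
  have hΛ : 0 < s * Real.sqrt C := by positivity
  refine ⟨fun P hP => ?_, ?_⟩
  · have h1 := fin ho hc hb h0 subset_rfl hc ho.measurableSet hΛ (by linarith) hPL hS hSΩ hSv' hP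
    have hP0 : 0 ≤ P := by
      by_contra h
      push Not at h
      have : 64 * (s * Real.sqrt C) * P < 0 := mul_neg_of_pos_of_neg (by positivity) h
      linarith
    refine hM.trans (ENNReal.ofReal_le_ofReal ?_)
    rw [div_le_iff₀ hs0]
    have h2 : 64 * Real.sqrt Real.pi * V ≤ 64 * Real.sqrt Real.pi * (64 * (s * Real.sqrt C) * P) := by
      gcongr
    refine h2.trans ?_
    have h3 : 64 * Real.sqrt Real.pi * 64 * (s * Real.sqrt C * P) ≤ 7300 * (s * Real.sqrt C * P) := by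
      have := pi_le
      gcongr
    linarith
  · have h1 := KRE_fin ho hc hb h0 subset_rfl hc ho.measurableSet hΛ (by linarith) hPL hS hSΩ hSv'
    calc μHE[n] {x | x ∈ Ω ∧ inner ℝ a x = (0:ℝ)}
        ≤ ENNReal.ofReal (64 * Real.sqrt Real.pi * V / s) := hM
      _ = ENNReal.ofReal (64 * Real.sqrt Real.pi / s) * volume Ω := by
          rw [hVe, ← ENNReal.ofReal_mul (by positivity)]
          congr 1
          ring
      _ ≤ ENNReal.ofReal (64 * Real.sqrt Real.pi / s) *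
          (ENNReal.ofReal (64 * (s * Real.sqrt C)) * μHE[n] (Ω ∩ frontier S)) := by gcongr
      _ = ENNReal.ofReal (64 * Real.sqrt Real.pi * 64 * Real.sqrt C) * μHE[n] (Ω ∩ frontier S) := by
          rw [← mul_assoc, ← ENNReal.ofReal_mul (by positivity)]
          congr 2
          field_simp
      _ ≤ _ := by
          have := pi_le
          gcongr

end Pool.Agent.H73.BV
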