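import Pool.Agent.H71.BdryMeasure

/-!
# The relative perimeter (De Giorgi) and the gradient of mollified indicator functions
-/

set_option autoImplicit false
set_option linter.unusedVariables false

open MeasureTheory Measure Set Filter Topology Function
open scoped ENNReal NNReal Pointwise Convolution

namespace Pool.Agent.H73.BV

open Pool.H71.Bdry

/-- the divergence of a vector field on `ℝⁿ` -/
noncomputable def divg {n : ℕ} (φ : EuclideanSpace ℝ (Fin n) → EuclideanSpace ℝ (Fin n))
    (x : EuclideanSpace ℝ (Fin n)) : ℝ :=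
  ∑ i, fderiv ℝ φ x (EuclideanSpace.single i 1) i

/-- the admissible test fields -/
structure Adm {n : ℕ} (Ω : Set (EuclideanSpace ℝ (Fin n)))
    (φ : EuclideanSpace ℝ (Fin n) → EuclideanSpace ℝ (Fin n)) : Prop where
  smooth : ContDiff ℝ 1 φ
  comp : HasCompactSupport φ
  supp : tsupport φ ⊆ Ω
  bound : ∀ x, ‖φ x‖ ≤ 1

section Field

variable {n : ℕ}

/-- scalar times vector, as a bilinear map -/
noncomputable def LL (n : ℕ) : EuclideanSpace ℝ (Fin n) →L[ℝ] ℝ →L[ℝ] EuclideanSpace ℝ (Fin n) :=
  (ContinuousLinearMap.lsmul ℝ ℝ).flip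

@[simp] theorem LL_apply (v : EuclideanSpace ℝ (Fin n)) (c : ℝ) : LL n v c = c • v := rfl

/-- the mollified field -/
noncomputable def fld (ψ : EuclideanSpace ℝ (Fin n) → EuclideanSpace ℝ (Fin n))
    (η : EuclideanSpace ℝ (Fin n) → ℝ) : EuclideanSpace ℝ (Fin n) → EuclideanSpace ℝ (Fin n) :=
  ψ ⋆[LL n, volume] (fun y => η (-y))

variable {ψ : EuclideanSpace ℝ (Fin n) → EuclideanSpace ℝ (Fin n)}
  {η : EuclideanSpace ℝ (Fin n) → ℝ}

theorem neg_contDiff (hη : ContDiff ℝ 1 η) : ContDiff ℝ 1 (fun y => η (-y)) :=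
  hη.comp contDiff_neg

theorem neg_comp (hc : HasCompactSupport η) : HasCompactSupport (fun y => η (-y)) :=
  hc.comp_homeomorph (Homeomorph.neg _)

theorem neg_fderiv (hη : ContDiff ℝ 1 η) (y v : EuclideanSpace ℝ (Fin n)) :
    fderiv ℝ (fun y => η (-y)) y v = - fderiv ℝ η (-y) v := by
  have h1 : HasFDerivAt (fun z : EuclideanSpace ℝ (Fin n) => -z)
      (-ContinuousLinearMap.id ℝ (EuclideanSpace ℝ (Fin n))) y := (hasFDerivAt_id y).neg
  have h2 : HasFDerivAt η (fderiv ℝ η (-y)) (-y) :=
    (hη.differentiable (by simp)).differentiableAt.hasFDerivAt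
  have h3 := (h2.comp y h1).fderiv
  have h4 : (fun y => η (-y)) = η ∘ fun z => -z := rfl
  rw [h4, h3]
  simp

theorem fld_contDiff (hψ : Continuous ψ) (hη : ContDiff ℝ 1 η) (hc : HasCompactSupport η) :
    ContDiff ℝ 1 (fld ψ η) :=
  (neg_comp hc).contDiff_convolution_right _ hψ.locallyIntegrable (neg_contDiff hη)

theorem fld_supp {r : ℝ} (hψc : HasCompactSupport ψ) (hr : tsupport η ⊆ Metric.closedBall 0 r) :
    tsupport (fld ψ η) ⊆ tsupport ψ + Metric.closedBall 0 r := by
  refine closure_minimal ?_ ?_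
  · refine (support_convolution_subset _).trans ?_
    refine add_subset_add (subset_tsupport _) ?_
    intro y hy
    have : -y ∈ Metric.closedBall (0 : EuclideanSpace ℝ (Fin n)) r := hr (subset_tsupport _ hy)
    simpa using this
  · exact (hψc.isCompact.add (isCompact_closedBall _ _)).isClosed

theorem fld_comp {r : ℝ} (hψc : HasCompactSupport ψ) (hr : tsupport η ⊆ Metric.closedBall 0 r) :
    HasCompactSupport (fld ψ η) :=
  (hψc.isCompact.add (isCompact_closedBall (0 : EuclideanSpace ℝ (Fin n)) r)).of_isClosed_subset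
    (isClosed_tsupport _) (fld_supp hψc hr)

theorem fld_bound (hψ : ∀ x, ‖ψ x‖ ≤ 1) (h0 : ∀ x, 0 ≤ η x) (hη : Integrable η)
    (h1 : ∫ x, η x = 1) (z : EuclideanSpace ℝ (Fin n)) : ‖fld ψ η z‖ ≤ 1 := by
  rw [fld, convolution_def]
  refine (norm_integral_le_integral_norm _).trans ?_
  have hi : Integrable (fun t => η (-(z - t))) := by
    have := hη.comp_sub_right z
    refine this.congr (Eventually.of_forall fun t => ?_)
    simp
  have h2 : ∫ t, η (-(z - t)) = 1 := by
    rw [← h1, ← integral_sub_right_eq_self η z]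
    congr 1
    ext t
    simp
  rw [← h2]
  refine integral_mono_of_nonneg (Eventually.of_forall fun t => norm_nonneg _) hi
    (Eventually.of_forall fun t => ?_)
  simp only [LL_apply, norm_smul, Real.norm_of_nonneg (h0 _)]
  exact mul_le_of_le_one_right (h0 _) (hψ t)

theorem cs_smul (c : EuclideanSpace ℝ (Fin n) → ℝ) (hψc : HasCompactSupport ψ) :
    HasCompactSupport (fun x => c x • ψ x) := by
  refine hψc.mono fun x hx => ?_
  intro h
  apply hx
  simp only [h, smul_zero]

theorem cs_mul (c : EuclideanSpace ℝ (Fin n) → ℝ) (hψc : HasCompactSupport ψ) (i : Fin n) :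
    HasCompactSupport (fun x => c x * ψ x i) := by
  refine hψc.mono fun x hx => ?_
  intro h
  apply hx
  simp only [h, PiLp.zero_apply, mul_zero]

theorem fld_divg (hψ : Continuous ψ) (hη : ContDiff ℝ 1 η) (hc : HasCompactSupport η)
    (hψc : HasCompactSupport ψ) (z : EuclideanSpace ℝ (Fin n)) :
    divg (fld ψ η) z = ∫ x, -(fderiv ℝ η (x - z) (ψ x)) := by
  have hli : LocallyIntegrable ψ volume := hψ.locallyIntegrable
  have hd := ((neg_comp hc).hasFDerivAt_convolution_right (LL n) hli
    (neg_contDiff hη) z).fderiv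
  have hfc : Continuous (fun x => fderiv ℝ η x) := hη.continuous_fderiv (by simp)
  have hterm : ∀ i : Fin n, fderiv ℝ (fld ψ η) z (EuclideanSpace.single i 1) i
      = ∫ x, -(fderiv ℝ η (x - z) (EuclideanSpace.single i 1)) * ψ x i := by
    intro i
    have h1 : fderiv ℝ (fld ψ η) z (EuclideanSpace.single i 1)
        = ∫ x, (-(fderiv ℝ η (x - z) (EuclideanSpace.single i 1))) • ψ x := by
      rw [fld, hd, convolution_precompR_apply _ hli ((neg_comp hc).fderiv ℝ)
        ((neg_contDiff hη).continuous_fderiv (by simp)), convolution_def]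
      congr 1
      ext1 x
      rw [LL_apply, neg_fderiv hη]
      simp
    have hint : Integrable (fun x => (-(fderiv ℝ η (x - z) (EuclideanSpace.single i 1))) • ψ x) := by
      refine Continuous.integrable_of_hasCompactSupport ?_ (cs_smul _ hψc)
      exact ((hfc.comp (continuous_id.sub continuous_const)).clm_apply continuous_const).neg.smul hψ
    rw [h1]
    have h2 := (EuclideanSpace.proj i : EuclideanSpace ℝ (Fin n) →L[ℝ] ℝ).integral_comp_comm hint
    exact h2.symm
  have hint2 : ∀ i : Fin n, Integrable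
      (fun x => -(fderiv ℝ η (x - z) (EuclideanSpace.single i 1)) * ψ x i) := by
    intro i
    have h3 : Continuous fun x => ψ x i := (EuclideanSpace.proj i).continuous.comp hψ
    refine Continuous.integrable_of_hasCompactSupport ?_ (cs_mul _ hψc i)
    exact ((hfc.comp (continuous_id.sub continuous_const)).clm_apply continuous_const).neg.mul h3
  rw [divg]
  simp_rw [hterm]
  rw [← integral_finsetSum _ (fun i _ => hint2 i)]
  congr 1
  ext1 x
  have h5 : ψ x = ∑ i, ψ x i • EuclideanSpace.single i (1:ℝ) := by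
    ext j
    simp [Finset.sum_apply, Pi.single_apply]
  conv_rhs => rw [h5]
  rw [_root_.map_sum, ← Finset.sum_neg_distrib]
  refine Finset.sum_congr rfl fun i _ => ?_
  rw [map_smul, smul_eq_mul]
  ring

end Field

end Pool.Agent.H73.BV
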